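import Pool.Agent.helper1.FI3.SpecH

/-!
# Project fi3 (MP_baa4d7_al): row QLS
-/

set_option autoImplicit false

namespace Pool.Agent.FI3

open Pool.Agent.helper58.DC Pool.Agent.DI Pool.Agent.GR Pool.Agent.OB Pool.Agent.DR Pool.Agent.FI

theorem QLS (hQID : QID_stmt) (hNU3 : NU3_stmt) (hOR3 : OR3_stmt) (hNZ3 : NZ3_stmt) (hQHT : QHT_stmt)
    (hDOR3 : DOR3_stmt) (hQDI : QDI_stmt) (hQCG : QCG_stmt) (hQEU : QEU_stmt) (hLCG : LCG_stmt)
    (hEVM : EVM_stmt) (hIDM : IDM_stmt) : QLS_stmt := by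
  classical
  intro p M hS hp2 G _ _ D x θ χ h hDY hGY P hPY
  have hP : P ≤ D := hPY.trans YY_le
  obtain ⟨i, hi⟩ := hQID p M hS G D x θ χ h.rt P hP
  obtain ⟨n, hn⟩ := hNU3 p M hS G D x θ χ h hGY P hP i hi
  have hDL : D ≤ cz P := Q1_D_le h.rt hP
  have hpg : IsPGroup p D := h.rt.dfa.pgrp
  have hne := IrrOn_ne h.rt.th
  have hDC : D ≤ cz D := le_cz_of_com h.rt.com
  have hle : Zc D (cz P) ≤ D := fun s hs => (Zc_mem.1 hs).1
  have hTP : TT M D θ ≤ cz P := by
    intro t ht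
    refine Subgroup.mem_centralizer_iff.2 fun y hy => ?_
    exact ((mem_YY.1 (hPY hy)).2 t ht).symm
  have hTn : TT M D θ ≤ nz D := fun t ht => ht.1
  have hYm : ∀ u : D, u ∈ (YY M D θ).subgroupOf D ↔ (u : G) ∈ YY M D θ := fun u =>
    Subgroup.mem_subgroupOf
  have hGood : ∀ u ∈ D, u ∉ YY M D θ → Good p M D (Cz (cz P) u) θ := by
    intro u hu huY
    rw [← cz_sup_zpowers]
    refine hGY _ (sup_le hP ((Subgroup.zpowers_le).2 hu)) ?_
    intro h1
    exact huY (h1 ((le_sup_right : Subgroup.zpowers u ≤ P ⊔ Subgroup.zpowers u) (Subgroup.mem_zpowers u)))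
  obtain ⟨I, hIc, hI1, hI2⟩ := QI0 D (TT M D θ) hTn
  have hconj : ∀ t ∈ TT M D θ, ∀ ψ ∈ IrrOn (cz P), ∀ u, ev ψ i (t * u * t⁻¹) = ev ψ i u := by
    intro t ht ψ hψ u
    unfold ev
    rw [← finsum_comp_equiv (MulAut.conj t).toEquiv]
    refine finsum_congr fun y => ?_
    change i (t * y * t⁻¹) * ψ (t * u * t⁻¹ * (t * y * t⁻¹)) = _
    rw [hi.inv t ⟨ht, hTP ht⟩ y]
    have h1 : t * u * t⁻¹ * (t * y * t⁻¹) = t * (u * y) * t⁻¹ := by group
    rw [h1, IrrOn_conj hψ (hTP ht)]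
  have hval1 : ∀ ψ : Bl M (cz P) θ, ∃ N k : ℕ, ev ψ i ((1 : D) : G) / θ 1 = N ∧ N ≠ 0 ∧ (ψ : G → ℂ) 1 = k ∧
      padicValNat p N + padicValNat p (Nat.card (cz P)) =
        padicValNat p k + padicValNat p (Nat.card D) := by
    intro ψ
    obtain ⟨N, d, hN, -, hd1, hN1, hval⟩ := hQHT p M hS G D x θ χ h.rt P hP i hi ψ ψ.2
    refine ⟨N, d, ?_, hN, hd1, by omega⟩
    rw [Subgroup.coe_one, hN1, mul_div_assoc, div_self hne, mul_one]
  have hcen : ∀ ψ : Bl M (cz P) θ, ∃ l : Zc D (cz P) →* ℂˣ,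
      (∀ (s : Zc D (cz P)) (g : G), (ψ : G → ℂ) (s * g) = lv l s * (ψ : G → ℂ) g) ∧
      ∀ (s : Zc D (cz P)) (g : G), ev ψ i (s * g) = lv l s * ev ψ i g := by
    intro ψ
    obtain ⟨l, hl⟩ := QCC (H := cz P) (S := Zc D (cz P)) (fun s hs => hDL (Zc_mem.1 hs).1)
      (fun s hs g hg => (Zc_mem.1 hs).2 g hg) ψ.2.1
    refine ⟨l, hl, fun s g => ?_⟩
    unfold ev
    rw [mul_finsum]
    refine finsum_congr fun y => ?_
    rw [mul_assoc, hl]
    ring
  refine ⟨I, fun ψ u => ev ψ i u / θ 1, fun u => n u, hIc, hI1, hI2, ?_, ?_, hval1⟩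
  · refine
    { set := hS
      odd := hp2
      com := QLA_D_com h.rt
      pg := hpg
      zy := ?_
      ne := ?_
      cop := ?_
      fz := ?_
      fr := ?_
      h1 := ?_
      h2 := ?_
      h3a := ?_
      h3b := ?_
      h3c := ?_
      h3d := ?_
      h4a := ?_
      h4b := ?_
      h5 := ?_
      h6 := ?_
      h7 := ?_ }
    · intro z hz
      rw [hYm, mem_YY]
      rw [Subgroup.mem_subgroupOf, Zc_mem] at hz
      exact ⟨z.2, fun t ht => hz.2 t (hTP ht)⟩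
    · intro h1
      apply hDY
      intro u hu
      have h2 : (⟨u, hu⟩ : D) ∈ (YY M D θ).subgroupOf D := by
        rw [h1]
        exact Subgroup.mem_top _
      exact (hYm _).1 h2
    · rw [hIc]
      exact h.bet
    · intro t ht z hz
      obtain ⟨s, hs, hst⟩ := hI1 t ht
      apply Subtype.ext
      rw [hst, (mem_YY.1 ((hYm z).1 hz)).2 s hs]
      group
    · intro t ht u huY htu
      obtain ⟨s, hs, hst⟩ := hI1 t ht
      have h1 : s * u = u * s := by
        have h2 := hst u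
        rw [htu] at h2
        have h3 : (u : G) * s = s * u * s⁻¹ * s := by rw [← h2]
        rw [h3]
        group
      have h2 : s ∈ cz D := by
        rcases h.sfr s hs u u.2 h1 with h3 | h3
        · exact absurd ((hYm u).2 h3) huY
        · exact h3
      refine MulEquiv.ext fun v => Subtype.ext ?_
      rw [hst, MulAut.one_apply]
      have h3 := (Subgroup.mem_centralizer_iff.1 h2) v v.2
      rw [← h3]
      group
    · intro ψ
      exact QLA_h1 hLCG hQEU hQCG hS h.rt hP hi ψ.2.1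
    · intro ψ t ht u
      obtain ⟨s, hs, hst⟩ := hI1 t ht
      change ev ψ i ((t u : D) : G) / θ 1 = ev ψ i (u : G) / θ 1
      rw [hst, hconj s hs ψ ψ.2.1]
    · intro ψ u huY
      rw [hYm] at huY
      exact (hn u u.2 huY).2.1 ψ ψ.2.1
    · intro u huY
      rw [hYm] at huY
      exact (hn u u.2 huY).1
    · intro t ht u huY
      rw [hYm] at huY
      obtain ⟨s, hs, hst⟩ := hI1 t ht
      change n ((t u : D) : G) = n u
      rw [hst]
      exact (hn u u.2 huY).2.2.1 s ⟨hs, hTP hs⟩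
    · intro s hs u huY
      rw [hYm] at huY
      exact (hn u u.2 huY).2.2.2 s hs
    · intro u a huY hta
      rw [hYm] at huY
      have h1 := hOR3 p M hS G D x θ χ h P hP i hi a a.2 u u.2 (by
        intro t ht hta'
        obtain ⟨s, hs, hst⟩ := hI2 t ht.1
        exact hta s hs (Subtype.ext ((hst u).trans hta')))
      have h2 : ∀ φ : Bl M (cz P) θ, ev φ i a / θ 1 * (starRingEnd ℂ) (ev φ i u / θ 1) =
          (θ 1 * (starRingEnd ℂ) (θ 1))⁻¹ * (ev φ i a * (starRingEnd ℂ) (ev φ i u)) := by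
        intro φ
        rw [map_div₀]
        have h3 : (starRingEnd ℂ) (θ 1) ≠ 0 := by
          rw [Ne, map_eq_zero]
          exact hne
        field_simp
      have h4 : ∑ᶠ φ : Bl M (cz P) θ, ev φ i a * (starRingEnd ℂ) (ev φ i u) = 0 := by
        have h5 : ∑ᶠ φ : Bl M (cz P) θ, ev φ i a * (starRingEnd ℂ) (ev φ i u) =
            ∑ᶠ φ ∈ Bl M (cz P) θ, ev φ i a * ev φ i (u : G)⁻¹ := by
          rw [← finsum_subtype_eq_finsum_cond]
          refine finsum_congr fun φ => ?_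
          rw [QLA_conj hQEU hQCG hS h.rt hP hi φ.2.1 u.2]
        rw [h5, ← h1, finsum_mem_def, finsum_mem_def]
        refine finsum_congr fun φ => ?_
        by_cases hφ : φ ∈ Bl M (cz P) θ
        · rw [Set.indicator_of_mem hφ, Set.indicator_of_mem hφ.1]
        · rw [Set.indicator_of_notMem hφ]
          by_cases hφ' : φ ∈ IrrOn (cz P)
          · rw [Set.indicator_of_mem hφ', QLA_out hEVM hIDM hi hφ' hφ (hDL a.2), zero_mul]
          · rw [Set.indicator_of_notMem hφ']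
      change ∑ᶠ φ : Bl M (cz P) θ, ev φ i a / θ 1 * (starRingEnd ℂ) (ev φ i u / θ 1) = 0
      rw [finsum_congr h2, ← mul_finsum, h4, mul_zero]
    · intro u huY
      rw [hYm] at huY
      have h1 := (hDOR3 p M hS G D x θ χ h P hP u u.2 u u.2 (hGood u u.2 huY) (hGood u u.2 huY)).2.1 rfl
      rw [← finsum_subtype_eq_finsum_cond] at h1
      exact h1
    · intro ψ
      obtain ⟨l, -, hl⟩ := hcen ψ
      refine ⟨l.comp (Subgroup.subgroupOfEquivOfLe hle).toMonoidHom, fun z u => ?_⟩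
      have h1 := hl (Subgroup.subgroupOfEquivOfLe hle z) u
      change ev ψ i (((z : D) : G) * (u : G)) / θ 1 = lv l (Subgroup.subgroupOfEquivOfLe hle z) * (ev ψ i u / θ 1)
      change ev ψ i (((z : D) : G) * (u : G)) = _ at h1
      rw [h1]
      ring
    · intro ψ
      obtain ⟨u, huD, huY⟩ := SetLike.not_le_iff_exists.1 hDY
      refine ⟨⟨u, huD⟩, fun h1 => huY ((hYm _).1 h1), ?_⟩
      exact hNZ3 p M hS G D x θ χ h.rt P hP u huD (hGood u huD huY) ψ ψ.2
    · intro ψ u _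
      exact hQDI G M (cz P) θ u (hDL u.2) ψ ψ.2.1
  · intro ψ l
    obtain ⟨l', h1, h2⟩ := hcen ψ
    obtain ⟨N, k, hN, hN0, -, -⟩ := hval1 ψ
    have hψ1 : (ψ : G → ℂ) 1 ≠ 0 := IrrOn_ne ψ.2.1
    have hN0' : ev ψ i ((1 : D) : G) / θ 1 ≠ 0 := by
      rw [hN]
      exact_mod_cast hN0
    constructor
    · intro h3 z hz
      have h4 := h3 z (by rw [Subgroup.mem_subgroupOf]; exact hz) 1
      change ev ψ i (((z * 1 : D) : D) : G) / θ 1 = lv l z * (ev ψ i ((1 : D) : G) / θ 1) at h4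
      have h5 := h2 ⟨z, hz⟩ ((1 : D) : G)
      change ev ψ i ((z : G) * ((1 : D) : G)) = _ at h5
      rw [Subgroup.coe_mul, h5] at h4
      have h6 : lv l' ⟨z, hz⟩ = lv l z := by
        apply mul_right_cancel₀ hN0'
        rw [← h4]
        ring
      have h7 := h1 ⟨z, hz⟩ 1
      rw [mul_one] at h7
      change (ψ : G → ℂ) (z : G) = _ at h7
      rw [h7, h6]
      rfl
    · intro h3 z hz u
      rw [Subgroup.mem_subgroupOf] at hz
      have h4 := h3 z hz
      have h5 := h1 ⟨z, hz⟩ 1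
      rw [mul_one] at h5
      change (ψ : G → ℂ) (z : G) = _ at h5
      have h6 : lv l' ⟨z, hz⟩ = lv l z := by
        apply mul_right_cancel₀ hψ1
        rw [← h5, h4]
        rfl
      change ev ψ i (((z * u : D) : D) : G) / θ 1 = lv l z * (ev ψ i (u : G) / θ 1)
      have h7 := h2 ⟨z, hz⟩ (u : G)
      change ev ψ i ((z : G) * (u : G)) = _ at h7
      rw [Subgroup.coe_mul, h7, h6]
      ring

end Pool.Agent.FI3
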