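import Pool.Agent.helper70.FI3.SpecN3

/-!
# Project fi3 (MP_baa4d7_al): row NWT3
-/

set_option autoImplicit false

namespace Pool.Agent.FI3

open Pool.Agent.helper58.DC Pool.Agent.DI Pool.Agent.GR Pool.Agent.OB Pool.Agent.DR Pool.Agent.FI

theorem NWT3 (hFRA : FRA3_stmt) (hGTR : GTR3_stmt) : NWT3_stmt := by
  classical
  intro p M hS G _ _ D x θ χ h hGY P hPY
  have hP : P ≤ D := hPY.trans YY_le
  obtain ⟨⟨hCT, -, -, hTL', -⟩, -, -⟩ := hFRA p M hS G D x θ χ h P hP
  have hTL : TT M D θ ≤ cz P := hTL' hPY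
  have hTi : TT M D θ ⊓ cz P = TT M D θ := inf_eq_left.2 hTL
  refine ⟨?_, ?_, ?_, ?_⟩
  · intro z hz
    rw [Zc_mem] at hz
    rw [mem_YY]
    exact ⟨hz.1, fun t ht => hz.2 t (hTL ht)⟩
  · intro u hu
    unfold wt
    rw [hTi]
    have h1 : Cz (TT M D θ) u = TT M D θ := by
      ext t
      rw [mem_Cz]
      exact ⟨fun h2 => h2.1, fun h2 => ⟨h2, ((mem_YY.1 hu).2 t h2).symm⟩⟩
    rw [h1, Subgroup.relIndex_self]
  · intro u hu
    rw [Zc_mem] at hu
    ext l
    rw [mem_Cz]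
    exact ⟨fun h2 => h2.1, fun h2 => ⟨h2, (hu.2 l h2).symm⟩⟩
  · intro u hu huY
    constructor
    · unfold wt iI
      rw [hTi]
      have h1 : Cz (TT M D θ) u = cz D := by
        ext t
        rw [mem_Cz]
        constructor
        · rintro ⟨h2, h3⟩
          rcases h.sfr t h2 u hu h3.symm with h4 | h4
          · exact absurd h4 huY
          · exact h4
        · intro h2
          exact ⟨hCT h2, (Subgroup.mem_centralizer_iff.1 h2) u hu⟩
      rw [h1]
    · refine hGTR p M hS G D (Cz (cz P) u) θ ?_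
      rw [← cz_sup_zpowers]
      refine hGY _ (sup_le hP ((Subgroup.zpowers_le).2 hu)) ?_
      intro h1
      exact huY (h1 ((le_sup_right : Subgroup.zpowers u ≤ P ⊔ Subgroup.zpowers u) (Subgroup.mem_zpowers u)))

end Pool.Agent.FI3
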