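import Pool.Agent.helper58.FI3.SpecF3

/-! # Row fi3:FNG3 (MP_baa4d7_al): counting -/

set_option autoImplicit false

namespace Pool.Agent.FI3

open Pool.Agent.helper58.DC Pool.Agent.DI Pool.Agent.GR Pool.Agent.OB Pool.Agent.DR Pool.Agent.FI

/-- The number of elements of `T g K`. -/
theorem FNG3_count {G : Type} [Group G] [Finite G] (T K Z : Subgroup G) (g₀ : G) (W : Set G)
    (hW : ∀ g, g ∈ W ↔ ∃ t ∈ T, ∃ k ∈ K, g = t * g₀ * k)
    (hZ : ∀ c, c ∈ Z ↔ c ∈ T ∧ g₀⁻¹ * c * g₀ ∈ K) :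
    W.ncard * Nat.card Z = Nat.card T * Nat.card K := by
  classical
  let f : T × K → W := fun x => ⟨(x.1 : G) * g₀ * (x.2 : G), (hW _).2 ⟨x.1, x.1.2, x.2, x.2.2, rfl⟩⟩
  have hfib : ∀ y : W, Nonempty ({x : T × K // f x = y} ≃ Z) := by
    intro y
    obtain ⟨t, ht, k, hk, hy⟩ := (hW y.1).1 y.2
    refine ⟨{
      toFun := fun x => ⟨t⁻¹ * (x.1.1 : G), ?_⟩
      invFun := fun c => ⟨(⟨t * (c : G), ?_⟩, ⟨g₀⁻¹ * (c : G)⁻¹ * g₀ * k, ?_⟩), ?_⟩
      left_inv := ?_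
      right_inv := ?_ }⟩
    · rw [hZ]
      refine ⟨T.mul_mem (T.inv_mem ht) x.1.1.2, ?_⟩
      have h1 : (x.1.1 : G) * g₀ * (x.1.2 : G) = t * g₀ * k := by
        have h2 : ((f x.1 : W) : G) = y := congrArg Subtype.val x.2
        rw [← hy, ← h2]
      have h3 : g₀⁻¹ * (t⁻¹ * (x.1.1 : G)) * g₀ = k * (x.1.2 : G)⁻¹ := by
        have h4 : (x.1.1 : G) = t * g₀ * k * (x.1.2 : G)⁻¹ * g₀⁻¹ := by
          rw [← h1]
          group
        rw [h4]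
        group
      rw [h3]
      exact K.mul_mem hk (K.inv_mem x.1.2.2)
    · exact T.mul_mem ht ((hZ _).1 c.2).1
    · refine K.mul_mem ?_ hk
      have h1 := K.inv_mem ((hZ _).1 c.2).2
      have h2 : (g₀⁻¹ * (c : G) * g₀)⁻¹ = g₀⁻¹ * (c : G)⁻¹ * g₀ := by group
      rwa [h2] at h1
    · apply Subtype.ext
      show t * (c : G) * g₀ * (g₀⁻¹ * (c : G)⁻¹ * g₀ * k) = y
      rw [hy]
      group
    · rintro ⟨⟨a, b⟩, hx⟩
      apply Subtype.ext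
      have h1 : (a : G) * g₀ * (b : G) = t * g₀ * k := by
        have h2 : ((f (a, b) : W) : G) = y := congrArg Subtype.val hx
        rw [← hy, ← h2]
      refine Prod.ext (Subtype.ext ?_) (Subtype.ext ?_)
      · show t * (t⁻¹ * (a : G)) = a
        group
      · show g₀⁻¹ * (t⁻¹ * (a : G))⁻¹ * g₀ * k = b
        have h3 : (b : G) = g₀⁻¹ * (a : G)⁻¹ * (t * g₀ * k) := by
          rw [← h1]
          group
        rw [h3]
        group
    · intro c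
      apply Subtype.ext
      show t⁻¹ * (t * (c : G)) = c
      group
  have e1 : (Σ y : W, {x : T × K // f x = y}) ≃ W × Z :=
    (Equiv.sigmaCongrRight fun y => (hfib y).some).trans (Equiv.sigmaEquivProd W Z)
  have e2 := (Equiv.sigmaFiberEquiv f).symm.trans e1
  have h1 := Nat.card_congr e2
  rw [Nat.card_prod, Nat.card_prod, Nat.card_coe_set_eq] at h1
  exact h1.symm

theorem FNG3 (hCNQ3 : CNQ3_stmt) (hFZC3 : FZC3_stmt) (hFEQ : FEQ_stmt) (hFSI : FSI_stmt)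
    (hIF : IF_stmt) : FNG3_stmt := by
  classical
  intro p M hS G _ _ D x θ χ hL P hP Q hQp hPQ η hη hsη
  have mul1 : ∀ (g h : G) (P : Subgroup G), cjS g (cjS h P) = cjS (g * h) P := fun g h P =>
    ((hFEQ G M g h P ⊥ ⊥ 0 0 0).1).1
  have mulF : ∀ (g h : G) (ψ : G → ℂ), cjF g (cjF h ψ) = cjF (g * h) ψ := fun g h ψ =>
    ((hFEQ G M g h ⊥ ⊥ ⊥ 0 ψ 0).1).2.1
  have czc : ∀ (g : G) (P : Subgroup G), cz (cjS g P) = cjS g (cz P) := fun g P =>
    (hFEQ G M g 1 P ⊥ ⊥ 0 0 0).2.1.1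
  have lec : ∀ (g : G) (P Q : Subgroup G), cjS g P ≤ cjS g Q ↔ P ≤ Q := fun g P Q =>
    (hFEQ G M g 1 P Q ⊥ 0 0 0).2.1.2.2.1
  have nzc : ∀ (g : G) (P : Subgroup G), cjS g P = P ↔ g ∈ nz P := fun g P =>
    (hFEQ G M g 1 P ⊥ ⊥ 0 0 0).2.1.2.2.2.1
  have cardc : ∀ (g : G) (P : Subgroup G), Nat.card (cjS g P) = Nat.card P := fun g P =>
    (hFEQ G M g 1 P ⊥ ⊥ 0 0 0).2.1.2.2.2.2.2
  have irr : ∀ (g : G) (L : Subgroup G) (ψ : G → ℂ), ψ ∈ IrrOn L ↔ cjF g ψ ∈ IrrOn (cjS g L) :=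
    fun g L ψ => (hFEQ G M g 1 ⊥ ⊥ L 0 ψ 0).2.2.2.1
  have sbc : ∀ (g : G) (L : Subgroup G) (η ψ : G → ℂ),
      SB M L η ψ ↔ SB M (cjS g L) (cjF g η) (cjF g ψ) :=
    fun g L η ψ => (hFEQ G M g 1 ⊥ ⊥ L η ψ 0).2.2.2.2.1
  obtain ⟨⟨-, -, -, -, -, hTL, -, -, hYD⟩, -⟩ := hFZC3 p M hS G D x θ χ hL P hP
  have hPD : P ≤ D := hP.trans hYD
  have hDp : IsPGroup p D := hL.rt.dfa.pgrp
  have hθ : θ ∈ IrrOn (cz D) := hL.rt.th
  have hKL : cz Q ≤ cz P := Subgroup.centralizer_le (SetLike.coe_subset_coe.2 hPQ)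
  obtain ⟨A, hA⟩ : ∃ A : Set G, A = {g : G | g ∈ cz P ∧ cjS g Q ≤ D ∧ SB M (cz (cjS g Q)) θ (cjF g η)} := ⟨_, rfl⟩
  rw [← hA]
  -- the count, for every element of `A`
  have key : ∀ g₀ ∈ A, A.ncard * Nat.card ↥(TT M D θ ⊓ cz (cjS g₀ Q)) =
      Nat.card (TT M D θ) * Nat.card (cz Q) := by
    intro g₀ hgA
    rw [hA] at hgA
    obtain ⟨hgP, hg₀, hs₀⟩ := hgA
    obtain ⟨Q₀, hQ₀⟩ : ∃ Q₀ : Subgroup G, Q₀ = cjS g₀ Q := ⟨_, rfl⟩
    rw [← hQ₀] at hg₀ hs₀ ⊢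
    have hK₀ : ∀ l, l ∈ cz Q₀ ↔ g₀⁻¹ * l * g₀ ∈ cz Q := by
      intro l
      rw [hQ₀, czc]
      exact mem_cjS
    refine FNG3_count (TT M D θ) (cz Q) _ g₀ _ ?_ ?_
    · intro g
      rw [hA]
      constructor
      · rintro ⟨h0, h1, h2⟩
        have e1 : cjS (g₀ * g⁻¹) (cjS g Q) = Q₀ := by
          rw [mul1, hQ₀]
          congr 1
          group
        have e2 : cjF (g₀ * g⁻¹) (cjF g η) = cjF g₀ η := by
          rw [mulF]
          congr 1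
          group
        have h3 : Q₀ ≤ cjS (g₀ * g⁻¹) D := by
          rw [← e1]
          exact (lec _ _ _).2 h1
        have h4 : SB M (cz Q₀) (cjF (g₀ * g⁻¹) θ) (cjF g₀ η) := by
          have h5 := (sbc (g₀ * g⁻¹) _ _ _).1 h2
          rw [← czc, e1, e2] at h5
          exact h5
        have h6 : cjF g₀ η ∈ IrrOn (cz Q₀) := by
          rw [hQ₀, czc]
          exact (irr g₀ (cz Q) η).1 hη
        have h7 : cjF (g₀ * g⁻¹) θ ∈ IrrOn (cz (cjS (g₀ * g⁻¹) D)) := by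
          rw [czc]
          exact (irr _ _ _).1 hθ
        obtain ⟨l, hl, h8, h9⟩ := hL.cnj Q₀ hg₀ (cjF g₀ η) h6 hs₀ (cjS (g₀ * g⁻¹) D)
          (hDp.map _) h3 (cardc _ _) (cjF (g₀ * g⁻¹) θ) h7 h4
        rw [mul1] at h8
        rw [mulF] at h9
        have h10 : l * (g₀ * g⁻¹) ∈ TT M D θ := ⟨(nzc _ _).1 h8, h9⟩
        refine ⟨_, (TT M D θ).inv_mem h10, _, (hK₀ l).1 hl, ?_⟩
        group
      · rintro ⟨t, ht, k, hk, rfl⟩
        have hkn : cjS k Q = Q := (nzc k Q).2 (Subgroup.centralizer_le_normalizer (Q : Set G) hk)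
        have hkη : cjF k η = η := by
          funext y
          rw [cjF_apply]
          have h1 := ((hIF G (cz Q)).2 η hη).2.1 k⁻¹ ((cz Q).inv_mem hk) y
          rw [inv_inv] at h1
          exact h1
        have e1 : cjS (t * g₀ * k) Q = cjS t Q₀ := by
          rw [← mul1, hkn, ← mul1, hQ₀]
        have e2 : cjF (t * g₀ * k) η = cjF t (cjF g₀ η) := by
          rw [← mulF, hkη, ← mulF]
        have htD : cjS t D = D := (nzc t D).2 ht.1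
        have hle : cjS t Q₀ ≤ D := by
          calc cjS t Q₀ ≤ cjS t D := (lec t Q₀ D).2 hg₀
            _ = D := htD
        show t * g₀ * k ∈ cz P ∧ cjS (t * g₀ * k) Q ≤ D ∧
          SB M (cz (cjS (t * g₀ * k) Q)) θ (cjF (t * g₀ * k) η)
        rw [e1, e2]
        refine ⟨(cz P).mul_mem ((cz P).mul_mem (hTL ht) hgP) (hKL hk), hle, ?_⟩
        have h1 : SB M (cz (cjS t Q₀)) (cjF t θ) (cjF t (cjF g₀ η)) := by
          rw [czc]
          exact (sbc t _ _ _).1 hs₀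
        have h2 : SB M (cz (cjS t Q₀)) (cjF t θ) θ := by
          refine (hFSI p M hS G (cz D) (cz (cjS t Q₀)) (cjF t θ) θ).1 ?_ ?_ hθ.1 ht.2
          · exact Subgroup.centralizer_le (SetLike.coe_subset_coe.2 hle)
          · have h3 : cjF t θ ∈ IrrOn (cz D) := by
              have h4 := (irr t (cz D) θ).1 hθ
              rw [← czc, htD] at h4
              exact h4
            exact h3.1
        exact h2.symm.trans h1
    · intro c
      rw [← hK₀, ← Subgroup.mem_inf]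
  -- an element of `A`
  obtain ⟨g₀, hg₀, hg₁, hg₂⟩ := hCNQ3 p M hS G D x θ χ hL P hPD Q hQp hPQ η hη hsη
  have hgA : g₀ ∈ A := by
    rw [hA]
    exact ⟨hg₀, hg₁, hg₂⟩
  have hpos : 0 < A.ncard := (Set.ncard_pos (Set.toFinite A)).2 ⟨g₀, hgA⟩
  have hconst : ∀ g ∈ A, Nat.card ↥(TT M D θ ⊓ cz (cjS g Q)) = Nat.card ↥(TT M D θ ⊓ cz (cjS g₀ Q)) := by
    intro g hg
    exact Nat.eq_of_mul_eq_mul_left hpos ((key g hg).trans (key g₀ hgA).symm)
  rw [finsum_mem_congr rfl hconst, finsum_mem_eq_finite_toFinset_sum _ (Set.toFinite A), Finset.sum_const,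
    ← Set.ncard_eq_toFinset_card A (Set.toFinite A), smul_eq_mul]
  exact key g₀ hgA

end Pool.Agent.FI3
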